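import Pool.Agent.Q231.Ships.Lemma2

/-!
# The case analysis: a common circle colouring for two triples of integers
-/

namespace Pool.Agent.Q231.Ships

/-- both triples are hit by one circle colouring with an odd parameter -/
def Circ (p q v₁ v₂ : ℤ) : Prop :=
  ∃ H t : ℤ, 0 < H ∧ Odd t ∧ Good H t p q ∧ Good H t v₁ v₂

/-- the exceptional pair `{0,1,8}`, `{0,2,6}` up to reflections and a factor -/
def Exc (p q v₁ v₂ : ℤ) : Prop :=
  ∃ D : ℤ, D ≠ 0 ∧ ((p = 7 * D ∧ q = D) ∨ (p = D ∧ q = 7 * D)) ∧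
    ((v₁ = 6 * D ∧ v₂ = -2 * D) ∨ (v₁ = -2 * D ∧ v₂ = 6 * D) ∨
      (v₁ = -6 * D ∧ v₂ = 2 * D) ∨ (v₁ = 2 * D ∧ v₂ = -6 * D))

lemma antipodal {t v : ℤ} (ht : Odd t) : 2 * |v| ∣ t * v - |v| := by
  obtain ⟨s, hs⟩ := ht
  rcases abs_cases v with ⟨h, _⟩ | ⟨h, _⟩
  · rw [h, hs]; exact ⟨s, by ring⟩
  · rw [h, hs]; exact ⟨-(s + 1), by ring⟩

/-- if a difference `v` of the second triple does not give a common colouring -/
lemma fail_B {p q v v₁ v₂ : ℤ} (hp : Odd p) (hq : Odd q) (hv0 : v ≠ 0) (hv : Even v)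
    (hmem : v = v₁ ∨ v = v₂ ∨ v = v₁ + v₂) (hno : ¬ Circ p q v₁ v₂) :
    (∃ m, p + q = 2 * v * m) ∨ (∃ s, p - q = v * (2 * s + 1)) := by
  by_contra hcon
  push Not at hcon
  obtain ⟨hc1, hc2⟩ := hcon
  obtain ⟨M, hM⟩ : ∃ M, |v| = 2 * M := by
    obtain ⟨c, hc⟩ := hv
    rcases abs_cases v with ⟨h, _⟩ | ⟨h, _⟩
    · exact ⟨c, by rw [h, hc]; ring⟩
    · exact ⟨-c, by rw [h, hc]; ring⟩
  have habs : 0 < |v| := abs_pos.mpr hv0
  have hM0 : 0 < M := by omega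
  have hex := exists_bal (M := M) (p := p) (q := q) hM0 hp hq ?_ ?_
  · obtain ⟨t, ht, hB⟩ := hex
    apply hno
    refine ⟨|v|, t, habs, ht, Or.inl (by rw [hM]; exact hB), ?_⟩
    have ha := antipodal (v := v) ht
    rcases hmem with h | h | h
    · exact Or.inr (Or.inl (by rw [← h]; exact ha))
    · exact Or.inr (Or.inr (Or.inl (by rw [← h]; exact ha)))
    · exact Or.inr (Or.inr (Or.inr (by rw [← h]; exact ha)))
  · rintro ⟨m, hm⟩
    rcases abs_cases v with ⟨h, _⟩ | ⟨h, _⟩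
    · exact hc1 m (by rw [hm, ← h, hM]; ring)
    · exact hc1 (-m) (by
        have : v = -(2 * M) := by linarith
        rw [hm, this]; ring)
  · rintro ⟨s, hs⟩
    rcases abs_cases v with ⟨h, _⟩ | ⟨h, _⟩
    · exact hc2 s (by
        have : v = 2 * M := by linarith
        rw [this]; linarith)
    · exact hc2 (-s - 1) (by
        have : v = -(2 * M) := by linarith
        rw [this]; linarith)

/-- if the even difference of the first triple does not give a common colouring -/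
lemma fail_A {p q w₁ w₂ m : ℤ} {k : ℕ} (hw1 : Odd w₁) (hw2 : Odd w₂) (hV : w₁ + w₂ ≠ 0)
    (hU : p + q ≠ 0) (hm : p + q = 2 * (2 ^ k * w₁ + 2 ^ k * w₂) * m)
    (hno : ¬ Circ p q (2 ^ k * w₁) (2 ^ k * w₂)) :
    ∃ S, w₁ - w₂ = 2 * ((w₁ + w₂) * m) * (2 * S + 1) := by
  by_contra hcon
  push Not at hcon
  have hm0 : m ≠ 0 := by
    rintro rfl
    apply hU
    rw [hm]; ring
  have hVm : (w₁ + w₂) * m ≠ 0 := mul_ne_zero hV hm0
  have habs : 0 < |(w₁ + w₂) * m| := abs_pos.mpr hVm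
  have hUabs : |p + q| = 2 ^ k * (2 * |(w₁ + w₂) * m|) := by
    rw [hm, show 2 * (2 ^ k * w₁ + 2 ^ k * w₂) * m = 2 ^ k * (2 * ((w₁ + w₂) * m)) by ring,
      abs_mul, abs_mul, abs_of_pos (by positivity : (0 : ℤ) < 2 ^ k), abs_two]
  have hex := exists_bal (M := |(w₁ + w₂) * m|) (p := w₁) (q := w₂) habs hw1 hw2 ?_ ?_
  · obtain ⟨t, ht, hB⟩ := hex
    apply hno
    refine ⟨|p + q|, t, abs_pos.mpr hU, ht, ?_, ?_⟩
    · exact Or.inr (Or.inr (Or.inr (antipodal ht)))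
    · rw [hUabs]
      exact Or.inl (hB.scale (by positivity))
  · intro h
    have h1 := Int.le_of_dvd (abs_pos.mpr hV) ((dvd_abs _ _).mpr h)
    rw [abs_mul] at h1
    have h2 : 0 < |w₁ + w₂| := abs_pos.mpr hV
    have h3 : 1 ≤ |m| := Int.one_le_abs hm0
    nlinarith
  · rintro ⟨s, hs⟩
    rcases abs_cases ((w₁ + w₂) * m) with ⟨h, _⟩ | ⟨h, _⟩
    · rw [h] at hs
      exact hcon s (by linarith)
    · rw [h] at hs
      exact hcon (-s - 1) (by linarith)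

/-- the last option: large odd difference -/
lemma last_option {O c : ℤ} (hO : Odd O) (hc : 1 ≤ c) (hlarge : 4 * c ^ 2 - 1 ≤ O)
    (h12 : c = 1 → 12 ≤ O) :
    ∃ t : ℤ, Odd t ∧ Bal O t (2 * (1 + 2 * c)) (2 * (1 - 2 * c)) := by
  have hOpos : 0 < O := by nlinarith
  have hd := Int.mul_ediv_add_emod (O - 1) (2 * (2 * c + 1))
  have hr0 : 0 ≤ (O - 1) % (2 * (2 * c + 1)) := Int.emod_nonneg _ (by omega)
  have hr1 : (O - 1) % (2 * (2 * c + 1)) < 2 * (2 * c + 1) := Int.emod_lt_of_pos _ (by omega)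
  set y := (O - 1) / (2 * (2 * c + 1)) with hy
  have hy0 : 0 ≤ y := by
    by_contra h
    push Not at h
    nlinarith
  -- τ = y + 1
  have hlow : O ≤ 2 * (2 * c + 1) * (y + 1) := by linarith
  have hup : 2 * (2 * c + 1) * (y + 1) < O + 2 * (2 * c + 1) := by linarith
  have h1 : 2 * (2 * c - 1) * (y + 1) ≤ O := by
    by_contra h
    push Not at h
    -- (2c+1) (O+1) ≤ (2c+1) * 2(2c-1)(y+1) < (2c-1)(O + 2(2c+1))
    nlinarith
  have h2 : 4 * (y + 1) ≤ O := by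
    rcases eq_or_lt_of_le hc with h | h
    · have := h12 h.symm
      subst h
      omega
    · have : 4 * (y + 1) ≤ 2 * (2 * c - 1) * (y + 1) := by nlinarith
      linarith
  obtain ⟨o, ho⟩ := hO
  rcases Int.even_or_odd (y + 1) with hpar | hpar
  · refine ⟨-(y + 1) + O, ?_, 2 * O - 2 * (2 * c + 1) * (y + 1), 2 * (2 * c - 1) * (y + 1),
      ?_, by linarith, by nlinarith, h1, by linarith, ?_, ?_⟩
    · obtain ⟨a, ha⟩ := hpar
      exact ⟨-a + o, by rw [ha, ho]; ring⟩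
    · linarith
    · exact ⟨2 * c, by ring⟩
    · exact ⟨1 - 2 * c, by ring⟩
  · refine ⟨-(y + 1), hpar.neg, 2 * O - 2 * (2 * c + 1) * (y + 1), 2 * (2 * c - 1) * (y + 1),
      ?_, by linarith, by nlinarith, h1, by linarith, ?_, ?_⟩
    · linarith
    · exact ⟨-1, by ring⟩
    · exact ⟨0, by ring⟩

end Pool.Agent.Q231.Ships
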