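import Mathlib

/-!
# Circle colourings of the integers and triples of differences
-/

namespace Pool.Agent.Q231.Ships

lemma dvd_eq {a b c : ℤ} (h : a ∣ b) (e : b = c) : a ∣ c := e ▸ h

lemma dvd_eq' {a b c d : ℤ} (h : a ∣ b) (e : b = c) (e' : a = d) : d ∣ c := by
  rw [← e, ← e']; exact h

/-- the circle colouring with parameters `H`, `t` : the integer `i` gets a shot if
`t i mod 2H` is smaller than `H` -/
def col (H t i : ℤ) : Prop := (t * i) % (2 * H) < H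

/-- the balanced form -/
def Bal (H t p q : ℤ) : Prop :=
  ∃ X Y : ℤ, 0 ≤ X ∧ X ≤ H ∧ 0 ≤ Y ∧ Y ≤ H ∧ H ≤ X + Y ∧ 2 * H ∣ t * p - X ∧ 2 * H ∣ t * q - Y

/-- a sufficient condition for the colouring to hit the triple `0, p, p + q` -/
def Good (H t p q : ℤ) : Prop :=
  Bal H t p q ∨ 2 * H ∣ t * p - H ∨ 2 * H ∣ t * q - H ∨ 2 * H ∣ t * (p + q) - H

/-- the triple `0, p, p + q` is hit -/
def Hit (x : ℤ → Prop) (p q : ℤ) : Prop := ∀ z, x z ∨ x (z + p) ∨ x (z + p + q)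

lemma res_spec {H t i : ℤ} (hH : 0 < H) :
    0 ≤ (t * i) % (2 * H) ∧ (t * i) % (2 * H) < 2 * H ∧ 2 * H ∣ t * i - (t * i) % (2 * H) :=
  ⟨Int.emod_nonneg _ (by omega), Int.emod_lt_of_pos _ (by omega), Int.dvd_self_sub_emod⟩

lemma Good.hit {H t p q : ℤ} (hH : 0 < H) (h : Good H t p q) : Hit (col H t) p q := by
  intro z
  by_contra hcon
  push Not at hcon
  obtain ⟨h0, h1, h2⟩ := hcon
  unfold col at h0 h1 h2
  push Not at h0 h1 h2
  obtain ⟨a0, b0, c0⟩ := res_spec (t := t) (i := z) hH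
  obtain ⟨a1, b1, c1⟩ := res_spec (t := t) (i := z + p) hH
  obtain ⟨a2, b2, c2⟩ := res_spec (t := t) (i := z + p + q) hH
  set R0 := (t * z) % (2 * H)
  set R1 := (t * (z + p)) % (2 * H)
  set R2 := (t * (z + p + q)) % (2 * H)
  have d1 : 2 * H ∣ t * p - (R1 - R0) := by
    exact dvd_eq (dvd_sub c1 c0) (by ring)
  have d2 : 2 * H ∣ t * q - (R2 - R1) := by
    exact dvd_eq (dvd_sub c2 c1) (by ring)
  have d3 : 2 * H ∣ t * (p + q) - (R2 - R0) := by
    exact dvd_eq (dvd_sub c2 c0) (by ring)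
  have key : ∀ s A B : ℤ, 2 * H ∣ s - A → 2 * H ∣ s - B → |A - B| < 2 * H → A = B := by
    intro s A B hA hB hlt
    have h3 : 2 * H ∣ A - B := dvd_eq (dvd_sub hB hA) (by ring)
    have := Int.eq_zero_of_abs_lt_dvd h3 hlt
    omega
  rcases h with ⟨X, Y, hX0, hXH, hY0, hYH, hXY, hX, hY⟩ | h | h | h
  · have e1 : R1 - R0 = X := key _ _ _ d1 hX (by rw [abs_lt]; constructor <;> omega)
    have e2 : R2 - R1 = Y := key _ _ _ d2 hY (by rw [abs_lt]; constructor <;> omega)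
    omega
  · have e1 : R1 - R0 = H := key _ _ _ d1 h (by rw [abs_lt]; constructor <;> omega)
    omega
  · have e1 : R2 - R1 = H := key _ _ _ d2 h (by rw [abs_lt]; constructor <;> omega)
    omega
  · have e1 : R2 - R0 = H := key _ _ _ d3 h (by rw [abs_lt]; constructor <;> omega)
    omega

lemma Bal.scale {H t p q G : ℤ} (hG : 0 < G) (h : Bal H t p q) :
    Bal (G * H) t (G * p) (G * q) := by
  obtain ⟨X, Y, hX0, hXH, hY0, hYH, hXY, hX, hY⟩ := h
  refine ⟨G * X, G * Y, by positivity, by nlinarith, by positivity, by nlinarith, by nlinarith,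
    ?_, ?_⟩
  · exact dvd_eq' (mul_dvd_mul_left G hX) (by ring) (by ring)
  · exact dvd_eq' (mul_dvd_mul_left G hY) (by ring) (by ring)

lemma Good.scale {H t p q G : ℤ} (hG : 0 < G) (h : Good H t p q) :
    Good (G * H) t (G * p) (G * q) := by
  rcases h with h | h | h | h
  · exact Or.inl (h.scale hG)
  · refine Or.inr (Or.inl ?_)
    exact dvd_eq' (mul_dvd_mul_left G h) (by ring) (by ring)
  · refine Or.inr (Or.inr (Or.inl ?_))
    exact dvd_eq' (mul_dvd_mul_left G h) (by ring) (by ring)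
  · refine Or.inr (Or.inr (Or.inr ?_))
    exact dvd_eq' (mul_dvd_mul_left G h) (by ring) (by ring)

lemma Bal.symm {H t p q : ℤ} (h : Bal H t p q) : Bal H t q p := by
  obtain ⟨X, Y, hX0, hXH, hY0, hYH, hXY, hX, hY⟩ := h
  exact ⟨Y, X, hY0, hYH, hX0, hXH, by omega, hY, hX⟩

/-- cyclic rotation of the balanced form -/
lemma Bal.rot {H t p q : ℤ} (h : Bal H t p q) : Bal H t q (-(p + q)) := by
  obtain ⟨X, Y, hX0, hXH, hY0, hYH, hXY, hX, hY⟩ := h
  refine ⟨Y, 2 * H - X - Y, hY0, hYH, by omega, by omega, by omega, hY, ?_⟩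
  obtain ⟨a, ha⟩ := hX
  obtain ⟨b, hb⟩ := hY
  refine ⟨-a - b - 1, ?_⟩
  linear_combination -ha - hb

lemma Bal.neg_neg {H t p q : ℤ} (h : Bal H (-t) p q) : Bal H t (-p) (-q) := by
  obtain ⟨X, Y, hX0, hXH, hY0, hYH, hXY, hX, hY⟩ := h
  refine ⟨X, Y, hX0, hXH, hY0, hYH, hXY, ?_, ?_⟩
  · convert hX using 1; ring
  · convert hY using 1; ring

/-- if both residues are in the lower half, then a balanced parameter exists -/
lemma bal_of_lower {M p q t : ℤ} (hp : Odd p) (hq : Odd q) (ht : Odd t)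
    {X Y : ℤ} (hX0 : 0 ≤ X) (hX : X < 2 * M) (hY0 : 0 ≤ Y) (hY : Y < 2 * M)
    (hpX : 2 * (2 * M) ∣ t * p - X) (hqY : 2 * (2 * M) ∣ t * q - Y) :
    ∃ t' : ℤ, Odd t' ∧ Bal (2 * M) t' p q := by
  by_cases hXY : 2 * M ≤ X + Y
  · exact ⟨t, ht, X, Y, hX0, hX.le, hY0, hY.le, hXY, hpX, hqY⟩
  · refine ⟨-(t + 2 * M), ?_, 2 * M - X, 2 * M - Y, by omega, by omega, by omega, by omega,
      by omega, ?_, ?_⟩
    · obtain ⟨s, hs⟩ := ht
      exact ⟨-s - M - 1, by rw [hs]; ring⟩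
    · obtain ⟨a, ha⟩ := hpX
      obtain ⟨b, hb⟩ := hp
      refine ⟨-a - b - 1, ?_⟩
      rw [hb] at ha ⊢
      linear_combination -ha
    · obtain ⟨a, ha⟩ := hqY
      obtain ⟨b, hb⟩ := hq
      refine ⟨-a - b - 1, ?_⟩
      rw [hb] at ha ⊢
      linear_combination -ha

end Pool.Agent.Q231.Ships
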