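import Pool.Agent.Q231.Ships.Norm

/-!
# Densities of patterns, the exceptional pattern and the main existence theorem
-/

namespace Pool.Agent.Q231.Ships

open Filter Finset

/-- the density of a 0-1 sequence exists and is `δ` -/
def HasDensity (x : ℤ → ℕ) (δ : ℝ) : Prop :=
  Tendsto (fun N : ℕ => (∑ i ∈ Finset.Icc (-(N : ℤ)) N, (x i : ℝ)) / (2 * N + 1)) atTop (nhds δ)

/-- periodic 0-1 sequences with as many ones as zeros in a period -/
def HalfPeriodic (x : ℤ → ℕ) : Prop :=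
  (∀ i, x i ≤ 1) ∧ ∃ P : ℕ, 0 < P ∧ (∀ i, x (i + P) = x i) ∧ 2 * ∑ j ∈ range P, x (j : ℤ) = P

lemma sum_Icc_eq (f : ℤ → ℝ) (N : ℕ) :
    ∑ i ∈ Finset.Icc (-(N : ℤ)) N, f i = ∑ j ∈ range (2 * N + 1), f (-(N : ℤ) + j) := by
  symm
  apply Finset.sum_bij (fun (j : ℕ) _ => -(N : ℤ) + j)
  · intro j hj
    rw [Finset.mem_range] at hj
    rw [Finset.mem_Icc]
    constructor <;> omega
  · intro a _ b _ h
    omega
  · intro b hb
    rw [Finset.mem_Icc] at hb
    refine ⟨(b + N).toNat, ?_, ?_⟩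
    · rw [Finset.mem_range]; omega
    · omega
  · intro j _; rfl

/-- all window sums of a periodic sequence with zero mean are bounded -/
lemma window_bound {y : ℤ → ℝ} {P : ℕ} (hP : 0 < P) (hper : ∀ i, y (i + P) = y i)
    (hb : ∀ i, |y i| ≤ 1) (hsum : ∑ j ∈ range P, y (j : ℤ) = 0) (n : ℕ) (a : ℤ) :
    |∑ j ∈ range n, y (a + j)| ≤ P := by
  have hwin : ∀ a : ℤ, ∑ j ∈ range P, y (a + j) = 0 := by
    have hstep : ∀ a : ℤ, ∑ j ∈ range P, y (a + 1 + j) = ∑ j ∈ range P, y (a + j) := by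
      intro a
      have h1 : ∑ j ∈ range (P + 1), y (a + j) =
          (∑ j ∈ range P, y (a + 1 + j)) + y a := by
        rw [Finset.sum_range_succ']
        congr 1
        · apply Finset.sum_congr rfl
          intro j _
          congr 1; push_cast; ring
        · simp
      have h2 : ∑ j ∈ range (P + 1), y (a + j) = (∑ j ∈ range P, y (a + j)) + y (a + P) := by
        rw [Finset.sum_range_succ]
      rw [hper] at h2
      linarith
    intro a
    induction a using Int.induction_on with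
    | zero => simpa using hsum
    | succ i ih => rw [hstep]; exact ih
    | pred i ih =>
      have := hstep (-(i : ℤ) - 1)
      rw [sub_add_cancel] at this
      rw [← this]; exact ih
  induction n using Nat.strong_induction_on generalizing a with
  | _ n ih =>
    by_cases hn : n < P
    · calc |∑ j ∈ range n, y (a + j)| ≤ ∑ j ∈ range n, |y (a + j)| :=
            Finset.abs_sum_le_sum_abs _ _
        _ ≤ ∑ _j ∈ range n, (1 : ℝ) := Finset.sum_le_sum fun j _ => hb _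
        _ = n := by simp
        _ ≤ P := by exact_mod_cast hn.le
    · obtain ⟨m, rfl⟩ : ∃ m, n = P + m := ⟨n - P, by omega⟩
      rw [Finset.sum_range_add, hwin, zero_add]
      have h := ih m (by omega) (a + P)
      have e : ∑ x ∈ range m, y (a + ((P + x : ℕ) : ℤ)) = ∑ j ∈ range m, y (a + P + j) := by
        apply Finset.sum_congr rfl
        intro j _
        congr 1; push_cast; ring
      rw [e]; exact h

theorem HalfPeriodic.density {x : ℤ → ℕ} (h : HalfPeriodic x) : HasDensity x (1 / 2) := by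
  obtain ⟨hx, P, hP, hper, hsum⟩ := h
  set y : ℤ → ℝ := fun i => 2 * (x i : ℝ) - 1 with hy
  have hyper : ∀ i, y (i + P) = y i := by
    intro i; simp only [hy, hper]
  have hyb : ∀ i, |y i| ≤ 1 := by
    intro i
    have h1 : (x i : ℝ) ≤ 1 := by exact_mod_cast hx i
    have h0 : (0 : ℝ) ≤ x i := Nat.cast_nonneg _
    rw [abs_le]
    constructor <;> simp only [hy] <;> linarith
  have hysum : ∑ j ∈ range P, y (j : ℤ) = 0 := by
    simp only [hy]
    rw [Finset.sum_sub_distrib, ← Finset.mul_sum]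
    have : (2 : ℝ) * ∑ j ∈ range P, (x (j : ℤ) : ℝ) = P := by exact_mod_cast hsum
    rw [this]; simp
  have hbound := window_bound hP hyper hyb hysum
  have hrew : ∀ N : ℕ, (∑ i ∈ Finset.Icc (-(N : ℤ)) N, (x i : ℝ)) / (2 * N + 1) =
      1 / 2 + (∑ j ∈ range (2 * N + 1), y (-(N : ℤ) + j)) / (2 * (2 * N + 1)) := by
    intro N
    rw [sum_Icc_eq (fun i => (x i : ℝ))]
    have h1 : ∑ j ∈ range (2 * N + 1), y (-(N : ℤ) + j) =
        2 * (∑ j ∈ range (2 * N + 1), (x (-(N : ℤ) + j) : ℝ)) - (2 * N + 1) := by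
      simp only [hy]
      rw [Finset.sum_sub_distrib, ← Finset.mul_sum]
      simp
    rw [h1]
    have : (2 * (N : ℝ) + 1) ≠ 0 := by positivity
    field_simp
    ring
  unfold HasDensity
  simp_rw [hrew]
  have hlim : Tendsto (fun N : ℕ => (∑ j ∈ range (2 * N + 1), y (-(N : ℤ) + j)) /
      (2 * (2 * (N : ℝ) + 1))) atTop (nhds 0) := by
    apply squeeze_zero_norm (a := fun N : ℕ => (P : ℝ) * (1 / ((N : ℝ) + 1)))
    · intro N
      rw [Real.norm_eq_abs, abs_div]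
      rw [abs_of_pos (by positivity : (0 : ℝ) < 2 * (2 * (N : ℝ) + 1)), mul_one_div]
      have hN : (0 : ℝ) ≤ N := Nat.cast_nonneg N
      apply div_le_div₀ (by positivity) (hbound _ _) (by positivity)
      linarith
    · have := tendsto_one_div_add_atTop_nhds_zero_nat (𝕜 := ℝ)
      simpa using this.const_mul (P : ℝ)
  simpa using hlim.const_add (1 / 2 : ℝ)

/-- the 0-1 sequence of a circle colouring -/
noncomputable def cir (H t : ℤ) (i : ℤ) : ℕ := if (t * i) % (2 * H) < H then 1 else 0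

lemma exists_half {H t : ℤ} (hH : 0 < H) (ht : Odd t) : ∃ T : ℕ, 0 < T ∧ 2 * H ∣ t * T - H := by
  have hbez : t * Int.gcdA t (2 * H) + 2 * H * Int.gcdB t (2 * H) =
      (Int.gcd t (2 * H) : ℤ) := (Int.gcd_eq_gcd_ab _ _).symm
  set g : ℤ := (Int.gcd t (2 * H) : ℤ) with hg
  have hgt : g ∣ t := Int.gcd_dvd_left _ _
  have hgH : g ∣ 2 * H := Int.gcd_dvd_right _ _
  have hgo : Odd g := odd_of_dvd_odd hgt ht
  have hgH' : g ∣ H := by
    apply odd_dvd_of_dvd_four_mul hgo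
    exact hgH.trans ⟨2, by ring⟩
  obtain ⟨h, hh⟩ := hgH'
  set T₀ := Int.gcdA t (2 * H) * h with hT₀
  have hT : 2 * H ∣ t * T₀ - H := by
    refine ⟨-(Int.gcdB t (2 * H) * h), ?_⟩
    have : t * T₀ - H = h * (t * Int.gcdA t (2 * H)) - g * h := by rw [hT₀, ← hh]; ring
    rw [this, ← hbez]; ring
  have hmod : 2 * H ∣ T₀ - T₀ % (2 * H) := Int.dvd_self_sub_emod
  have hnn : 0 ≤ T₀ % (2 * H) := Int.emod_nonneg _ (by omega)
  have hT' : 2 * H ∣ t * (T₀ % (2 * H)) - H := by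
    have := dvd_sub hT (hmod.mul_left t)
    exact dvd_eq this (by ring)
  refine ⟨(T₀ % (2 * H)).toNat, ?_, ?_⟩
  · by_contra hcon
    have h0 : T₀ % (2 * H) = 0 := by omega
    rw [h0] at hT'
    have := Int.le_of_dvd hH (by
      have := (dvd_neg.mpr hT')
      exact dvd_eq this (by ring))
    omega
  · rw [Int.toNat_of_nonneg hnn]; exact hT'

theorem cir_half {H t : ℤ} (hH : 0 < H) (ht : Odd t) : HalfPeriodic (cir H t) := by
  obtain ⟨T, hT0, hT⟩ := exists_half hH ht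
  have hflip : ∀ i, cir H t (i + T) = 1 - cir H t i := by
    intro i
    unfold cir
    obtain ⟨a0, b0, c0⟩ := res_spec (t := t) (i := i) hH
    obtain ⟨a1, b1, c1⟩ := res_spec (t := t) (i := i + T) hH
    set R0 := (t * i) % (2 * H)
    set R1 := (t * (i + T)) % (2 * H)
    have h1 : 2 * H ∣ (R1 - R0) - H := by
      have := dvd_sub (dvd_add c0 hT) c1
      exact dvd_eq this (by ring)
    by_cases hlt : R0 < H
    · have h2 : R1 - R0 - H = 0 := Int.eq_zero_of_abs_lt_dvd h1 (by rw [abs_lt]; constructor <;> omega)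
      rw [if_pos hlt, if_neg (by omega)]
    · have h3 : 2 * H ∣ R1 - R0 + H := by
        have := dvd_add h1 (dvd_refl (2 * H))
        exact dvd_eq this (by ring)
      have h2 : R1 - R0 + H = 0 := Int.eq_zero_of_abs_lt_dvd h3 (by rw [abs_lt]; constructor <;> omega)
      rw [if_neg hlt, if_pos (by omega)]
  have hle : ∀ i, cir H t i ≤ 1 := by
    intro i; unfold cir; split_ifs <;> norm_num
  refine ⟨hle, 2 * T, by omega, ?_, ?_⟩
  · intro i
    have h1 := hflip (i + T)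
    rw [hflip i] at h1
    have h2 := hle i
    have : i + ((2 * T : ℕ) : ℤ) = i + T + T := by push_cast; ring
    rw [this, h1]
    omega
  · rw [two_mul T, Finset.sum_range_add]
    have : ∑ x ∈ range T, cir H t ((T + x : ℕ) : ℤ) = ∑ x ∈ range T, (1 - cir H t (x : ℤ)) := by
      apply Finset.sum_congr rfl
      intro j _
      rw [← hflip]; congr 1; push_cast; ring
    rw [this, ← Finset.sum_add_distrib]
    have : ∑ i ∈ range T, (cir H t (i : ℤ) + (1 - cir H t (i : ℤ))) = ∑ _i ∈ range T, 1 := by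
      apply Finset.sum_congr rfl
      intro j _
      have := hle j
      omega
    rw [this]; simp; ring

/-! ### the exceptional pattern -/

/-- the pattern 1011011000 -/
def pat (j : ℤ) : ℕ :=
  if j % 10 = 0 ∨ j % 10 = 2 ∨ j % 10 = 3 ∨ j % 10 = 5 ∨ j % 10 = 6 then 1 else 0

/-- stretched version of a 10-periodic pattern -/
def stretch (f : ℤ → ℕ) (G : ℤ) (i : ℤ) : ℕ := f (i / G)

lemma sum_stretch (f : ℤ → ℕ) (g : ℕ) (hg : 0 < g) (T : ℕ) :
    ∑ j ∈ range (g * T), stretch f g (j : ℤ) = g * ∑ j ∈ range T, f (j : ℤ) := by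
  induction T with
  | zero => simp
  | succ T ih =>
    rw [Nat.mul_succ, Finset.sum_range_add, ih, Finset.sum_range_succ, Nat.mul_add]
    congr 1
    have : ∑ x ∈ range g, stretch f g ((g * T + x : ℕ) : ℤ) = ∑ _x ∈ range g, f (T : ℤ) := by
      apply Finset.sum_congr rfl
      intro j hj
      rw [Finset.mem_range] at hj
      unfold stretch
      congr 1
      push_cast
      rw [add_comm, Int.add_mul_ediv_left _ _ (by omega)]
      rw [Int.ediv_eq_zero_of_lt (by omega) (by omega)]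
      simp
    rw [this]; simp

lemma stretch_half {f : ℤ → ℕ} (hf1 : ∀ i, f i ≤ 1) (hf : ∀ i, f (i + 10) = f i)
    (hs : ∑ j ∈ range 10, f (j : ℤ) = 5) {g : ℕ} (hg : 0 < g) :
    HalfPeriodic (stretch f g) := by
  refine ⟨fun i => hf1 _, g * 10, by positivity, ?_, ?_⟩
  · intro i
    unfold stretch
    push_cast
    rw [Int.add_mul_ediv_left _ _ (by omega), hf]
  · rw [sum_stretch f g hg, hs]; ring

lemma stretch_hit {f : ℤ → ℕ} {g : ℕ} (hg : 0 < g) {p q : ℤ}
    (h : Hit (fun i => f i = 1) p q) :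
    Hit (fun i => stretch f g i = 1) (g * p) (g * q) := by
  intro z
  have h1 := h (z / g)
  have e1 : (z + (g : ℤ) * p) / g = z / g + p := by
    rw [Int.add_mul_ediv_left _ _ (by omega)]
  have e2 : (z + (g : ℤ) * p + (g : ℤ) * q) / g = z / g + p + q := by
    rw [Int.add_mul_ediv_left _ _ (by omega), e1]
  simp only [stretch, e1, e2]
  exact h1

lemma pat_le (i : ℤ) : pat i ≤ 1 := by unfold pat; split_ifs <;> norm_num

lemma pat_per (i : ℤ) : pat (i + 10) = pat i := by unfold pat; simp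

lemma pat_sum : ∑ j ∈ range 10, pat (j : ℤ) = 5 := by decide

lemma patr_sum : ∑ j ∈ range 10, pat (-(j : ℤ)) = 5 := by decide

lemma pat_hit_iff (z : ℤ) : pat z = 1 ↔
    (z % 10 = 0 ∨ z % 10 = 2 ∨ z % 10 = 3 ∨ z % 10 = 5 ∨ z % 10 = 6) := by
  unfold pat
  split_ifs with h
  · exact ⟨fun _ => h, fun _ => rfl⟩
  · exact ⟨fun h' => absurd h' (by norm_num), fun h' => absurd h' h⟩

/-- the pattern hits the triples `{0,1,8}`, `{0,2,6}`, `{0,4,6}` -/
lemma pat_hits {p q : ℤ} (h : (p = 1 ∧ q = 7) ∨ (p = -7 ∧ q = -1) ∨ (p = 6 ∧ q = -2) ∨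
    (p = -2 ∧ q = 6) ∨ (p = -6 ∧ q = 2) ∨ (p = 2 ∧ q = -6)) :
    Hit (fun i => pat i = 1) p q := by
  intro z
  simp only [pat_hit_iff]
  rcases h with ⟨rfl, rfl⟩ | ⟨rfl, rfl⟩ | ⟨rfl, rfl⟩ | ⟨rfl, rfl⟩ | ⟨rfl, rfl⟩ | ⟨rfl, rfl⟩ <;>
    omega

/-- the reversed pattern hits the triples `{0,7,8}`, `{0,2,6}`, `{0,4,6}` -/
lemma patr_hits {p q : ℤ} (h : (p = 7 ∧ q = 1) ∨ (p = -1 ∧ q = -7) ∨ (p = 6 ∧ q = -2) ∨
    (p = -2 ∧ q = 6) ∨ (p = -6 ∧ q = 2) ∨ (p = 2 ∧ q = -6)) :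
    Hit (fun i => pat (-i) = 1) p q := by
  intro z
  simp only [pat_hit_iff]
  rcases h with ⟨rfl, rfl⟩ | ⟨rfl, rfl⟩ | ⟨rfl, rfl⟩ | ⟨rfl, rfl⟩ | ⟨rfl, rfl⟩ | ⟨rfl, rfl⟩ <;>
    omega

/-- the existence of a common half-periodic pattern -/
def Common (p q v₁ v₂ : ℤ) : Prop :=
  ∃ x : ℤ → ℕ, HalfPeriodic x ∧ Hit (fun i => x i = 1) p q ∧ Hit (fun i => x i = 1) v₁ v₂

lemma Circ.common {p q v₁ v₂ : ℤ} (h : Circ p q v₁ v₂) : Common p q v₁ v₂ := by
  obtain ⟨H, t, hH, ht, h1, h2⟩ := h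
  have e : ∀ i, cir H t i = 1 ↔ col H t i := by
    intro i; unfold cir col; split_ifs with h <;> simp [h]
  refine ⟨cir H t, cir_half hH ht, ?_, ?_⟩
  · intro z
    simp only [e]
    exact h1.hit hH z
  · intro z
    simp only [e]
    exact h2.hit hH z

lemma Exc.common {p q v₁ v₂ : ℤ} (h : Exc p q v₁ v₂) : Common p q v₁ v₂ := by
  obtain ⟨D, hD, hpq, hv⟩ := h
  have hg : 0 < D.natAbs := Int.natAbs_pos.mpr hD
  have hv' : ∀ f : ℤ → ℕ, (∀ a b : ℤ, ((a = 6 ∧ b = -2) ∨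
      (a = -2 ∧ b = 6) ∨ (a = -6 ∧ b = 2) ∨ (a = 2 ∧ b = -6)) → Hit (fun i => f i = 1) a b) →
      Hit (fun i => stretch f D.natAbs i = 1) v₁ v₂ := by
    intro f hf
    have key : ∀ a b : ℤ, ((a = 6 ∧ b = -2) ∨
      (a = -2 ∧ b = 6) ∨ (a = -6 ∧ b = 2) ∨ (a = 2 ∧ b = -6)) → v₁ = D.natAbs * a →
      v₂ = D.natAbs * b → Hit (fun i => stretch f D.natAbs i = 1) v₁ v₂ := by
      intro a b hab e1 e2
      rw [e1, e2]
      exact stretch_hit hg (hf a b hab)
    rcases Int.natAbs_eq D with hs | hs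
    · rcases hv with ⟨e1, e2⟩ | ⟨e1, e2⟩ | ⟨e1, e2⟩ | ⟨e1, e2⟩
      · exact key 6 (-2) (Or.inl ⟨rfl, rfl⟩) (by omega) (by omega)
      · exact key (-2) 6 (Or.inr (Or.inl ⟨rfl, rfl⟩)) (by omega) (by omega)
      · exact key (-6) 2 (Or.inr (Or.inr (Or.inl ⟨rfl, rfl⟩))) (by omega) (by omega)
      · exact key 2 (-6) (Or.inr (Or.inr (Or.inr ⟨rfl, rfl⟩))) (by omega) (by omega)
    · rcases hv with ⟨e1, e2⟩ | ⟨e1, e2⟩ | ⟨e1, e2⟩ | ⟨e1, e2⟩
      · exact key (-6) 2 (Or.inr (Or.inr (Or.inl ⟨rfl, rfl⟩))) (by omega) (by omega)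
      · exact key 2 (-6) (Or.inr (Or.inr (Or.inr ⟨rfl, rfl⟩))) (by omega) (by omega)
      · exact key 6 (-2) (Or.inl ⟨rfl, rfl⟩) (by omega) (by omega)
      · exact key (-2) 6 (Or.inr (Or.inl ⟨rfl, rfl⟩)) (by omega) (by omega)
  have c1 : ∀ a b : ℤ, (a = 1 ∧ b = 7) ∨ (a = -7 ∧ b = -1) → p = D.natAbs * a →
      q = D.natAbs * b → Common p q v₁ v₂ := by
    intro a b hab e1 e2
    refine ⟨stretch pat D.natAbs, stretch_half pat_le pat_per pat_sum hg, ?_, hv' pat ?_⟩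
    · rw [e1, e2]; exact stretch_hit hg (pat_hits (by rcases hab with h | h; exacts [Or.inl h, Or.inr (Or.inl h)]))
    · intro a b hab; exact pat_hits (Or.inr (Or.inr hab))
  have c2 : ∀ a b : ℤ, (a = 7 ∧ b = 1) ∨ (a = -1 ∧ b = -7) → p = D.natAbs * a →
      q = D.natAbs * b → Common p q v₁ v₂ := by
    intro a b hab e1 e2
    refine ⟨stretch (fun j => pat (-j)) D.natAbs, stretch_half (fun i => pat_le _)
      (fun i => ?_) patr_sum hg, ?_, hv' (fun j => pat (-j)) ?_⟩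
    · have := pat_per (-(i + 10))
      rw [show -(i + 10) + 10 = -i by ring] at this
      exact this.symm
    · rw [e1, e2]; exact stretch_hit hg (patr_hits (by rcases hab with h | h; exacts [Or.inl h, Or.inr (Or.inl h)]))
    · intro a b hab; exact patr_hits (Or.inr (Or.inr hab))
  rcases Int.natAbs_eq D with hs | hs
  · rcases hpq with ⟨e1, e2⟩ | ⟨e1, e2⟩
    · exact c2 7 1 (Or.inl ⟨rfl, rfl⟩) (by omega) (by omega)
    · exact c1 1 7 (Or.inl ⟨rfl, rfl⟩) (by omega) (by omega)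
  · rcases hpq with ⟨e1, e2⟩ | ⟨e1, e2⟩
    · exact c1 (-7) (-1) (Or.inr ⟨rfl, rfl⟩) (by omega) (by omega)
    · exact c2 (-1) (-7) (Or.inr ⟨rfl, rfl⟩) (by omega) (by omega)

lemma Circ.scale2 {p q v₁ v₂ : ℤ} (h : Circ p q v₁ v₂) {G : ℤ} (hG : 0 < G) :
    Circ (G * p) (G * q) (G * v₁) (G * v₂) := by
  obtain ⟨H, t, hH, ht, h1, h2⟩ := h
  exact ⟨G * H, t, by positivity, ht, h1.scale hG, h2.scale hG⟩

lemma Exc.scale2 {p q v₁ v₂ : ℤ} (h : Exc p q v₁ v₂) {G : ℤ} (hG : 0 < G) :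
    Exc (G * p) (G * q) (G * v₁) (G * v₂) := by
  obtain ⟨D, hD, hpq, hv⟩ := h
  refine ⟨G * D, mul_ne_zero hG.ne' hD, ?_, ?_⟩
  · rcases hpq with ⟨rfl, rfl⟩ | ⟨rfl, rfl⟩
    · left; constructor <;> ring
    · right; constructor <;> ring
  · rcases hv with ⟨rfl, rfl⟩ | ⟨rfl, rfl⟩ | ⟨rfl, rfl⟩ | ⟨rfl, rfl⟩
    · left; constructor <;> ring
    · right; left; constructor <;> ring
    · right; right; left; constructor <;> ring
    · right; right; right; constructor <;> ring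

/-- two triples in the 2-adic normal form have a common pattern -/
theorem common_norm {p q w₁ w₂ : ℤ} {n k : ℕ} (hp : Odd p) (hq : Odd q) (hw1 : Odd w₁)
    (hw2 : Odd w₂) (hU : p + q ≠ 0) (hV : w₁ + w₂ ≠ 0) (hnk : n ≤ k) :
    Common (2 ^ n * p) (2 ^ n * q) (2 ^ k * w₁) (2 ^ k * w₂) := by
  obtain ⟨d, rfl⟩ : ∃ d, k = n + d := ⟨k - n, by omega⟩
  have hpos : (0 : ℤ) < 2 ^ n := by positivity
  rcases Nat.eq_zero_or_pos d with rfl | hd
  · apply Circ.common
    refine ⟨2 ^ n, 1, hpos, odd_one, Or.inr (Or.inl ?_), Or.inr (Or.inl ?_)⟩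
    · obtain ⟨a, ha⟩ := hp
      exact ⟨a, by rw [ha]; ring⟩
    · obtain ⟨a, ha⟩ := hw1
      exact ⟨a, by rw [ha, add_zero]; ring⟩
  · rw [pow_add, mul_assoc, mul_assoc]
    rcases norm_case hd hp hq hw1 hw2 hU hV with h | h
    · exact (h.scale2 hpos).common
    · exact (h.scale2 hpos).common

lemma Common.swap {p q v₁ v₂ : ℤ} (h : Common p q v₁ v₂) : Common v₁ v₂ p q := by
  obtain ⟨x, h0, h1, h2⟩ := h
  exact ⟨x, h0, h2, h1⟩

/-- normal form of a triple -/
lemma normal_form {d₁ d₂ : ℤ} (h1 : d₁ ≠ 0) (h2 : d₂ ≠ 0) (h3 : d₁ + d₂ ≠ 0) :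
    ∃ (n : ℕ) (p q : ℤ), Odd p ∧ Odd q ∧ p + q ≠ 0 ∧
      ∀ x : ℤ → Prop, Hit x (2 ^ n * p) (2 ^ n * q) → Hit x d₁ d₂ := by
  -- take out the common power of two
  have hpow : ∃ (n : ℕ) (a b : ℤ), d₁ = 2 ^ n * a ∧ d₂ = 2 ^ n * b ∧ (Odd a ∨ Odd b) := by
    have hg : Int.gcd d₁ d₂ ≠ 0 := by
      intro h
      rw [Int.gcd_eq_zero_iff] at h
      exact h1 h.1
    obtain ⟨a, b, hab, ha, hb⟩ := Int.exists_gcd_one (Nat.pos_of_ne_zero hg)
    obtain ⟨k, m, hm, hk⟩ := Nat.exists_eq_two_pow_mul_odd hg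
    have hmo : Odd (m : ℤ) := by exact_mod_cast hm
    refine ⟨k, m * a, m * b, ?_, ?_, ?_⟩
    · conv_lhs => rw [ha, hk]
      push_cast; ring
    · conv_lhs => rw [hb, hk]
      push_cast; ring
    · by_contra hcon
      push Not at hcon
      obtain ⟨c1, c2⟩ := hcon
      rw [Int.not_odd_iff_even] at c1 c2
      have c1' : Even a := by
        rcases Int.even_mul.mp c1 with h | h
        · exact absurd h (Int.not_even_iff_odd.mpr hmo)
        · exact h
      have c2' : Even b := by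
        rcases Int.even_mul.mp c2 with h | h
        · exact absurd h (Int.not_even_iff_odd.mpr hmo)
        · exact h
      have := Int.dvd_coe_gcd c1'.two_dvd c2'.two_dvd
      rw [hab] at this
      norm_num at this
  obtain ⟨n, a, b, rfl, rfl, hab⟩ := hpow
  have h2n : (2 : ℤ) ^ n ≠ 0 := by positivity
  have ha0 : a ≠ 0 := by rintro rfl; simp at h1
  have hb0 : b ≠ 0 := by rintro rfl; simp at h2
  have hab0 : a + b ≠ 0 := by
    intro h
    apply h3
    rw [← mul_add, h, mul_zero]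
  rcases Int.even_or_odd a with ha | ha
  · have hb : Odd b := by
      rcases hab with h | h
      · exact absurd ha (Int.not_even_iff_odd.mpr h)
      · exact h
    refine ⟨n, b, -(a + b), hb, (ha.add_odd hb).neg, ?_, ?_⟩
    · intro h; apply ha0; linarith
    · intro x hx z
      have := hx (z + 2 ^ n * a)
      rw [show z + 2 ^ n * a + 2 ^ n * b + 2 ^ n * -(a + b) = z by ring] at this
      tauto
  · rcases Int.even_or_odd b with hb | hb
    · refine ⟨n, -(a + b), a, (ha.add_even hb).neg, ha, ?_, ?_⟩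
      · intro h; apply hb0; linarith
      · intro x hx z
        have := hx (z + 2 ^ n * a + 2 ^ n * b)
        rw [show z + 2 ^ n * a + 2 ^ n * b + 2 ^ n * -(a + b) = z by ring] at this
        tauto
    · exact ⟨n, a, b, ha, hb, hab0, fun x hx => hx⟩

/-- **Main existence theorem**: any two triples of distinct integers have a common pattern of
density one half. -/
theorem common_all {d₁ d₂ e₁ e₂ : ℤ} (h1 : d₁ ≠ 0) (h2 : d₂ ≠ 0) (h3 : d₁ + d₂ ≠ 0)
    (h4 : e₁ ≠ 0) (h5 : e₂ ≠ 0) (h6 : e₁ + e₂ ≠ 0) : Common d₁ d₂ e₁ e₂ := by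
  obtain ⟨n, p, q, hp, hq, hpq, hx⟩ := normal_form h1 h2 h3
  obtain ⟨k, w₁, w₂, hw1, hw2, hw, hy⟩ := normal_form h4 h5 h6
  have hc : Common (2 ^ n * p) (2 ^ n * q) (2 ^ k * w₁) (2 ^ k * w₂) := by
    rcases le_total n k with h | h
    · exact common_norm hp hq hw1 hw2 hpq hw h
    · exact (common_norm hw1 hw2 hp hq hw hpq h).swap
  obtain ⟨x, h0, ha, hb⟩ := hc
  exact ⟨x, h0, hx _ ha, hy _ hb⟩

end Pool.Agent.Q231.Ships
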