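import Pool.Agent.Q231.Ships.Circle

/-!
# Existence of an odd parameter which is balanced for a pair of odd differences
-/

namespace Pool.Agent.Q231.Ships

lemma odd_of_dvd_odd {a b : ℤ} (h : a ∣ b) (hb : Odd b) : Odd a := by
  by_contra ha
  rw [Int.not_odd_iff_even] at ha
  obtain ⟨c, hc⟩ := h
  rw [hc] at hb
  exact (Int.not_even_iff_odd.mpr hb) (ha.mul_right c)

lemma odd_dvd_of_dvd_four_mul {g M : ℤ} (hg : Odd g) (h : g ∣ 4 * M) : g ∣ M := by
  have hc : IsCoprime g 4 := by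
    obtain ⟨k, hk⟩ := hg
    -- (1 - 2k) (2k+1) + k^2 * 4 = 1
    exact ⟨1 - 2 * k, k ^ 2, by rw [hk]; ring⟩
  exact hc.dvd_of_dvd_mul_left h

/-- first case: `p` has a common divisor with the modulus -/
lemma exists_bal_nonunit {M p q : ℤ} (hM : 0 < M) (hp : Odd p) (hq : Odd q)
    {g : ℤ} (hg1 : 1 < g) (hg : ∃ a b : ℤ, p * a + 4 * M * b = g) (hgp : g ∣ p)
    (hgM : g ∣ 4 * M) (hcop : IsCoprime q g) : ∃ t : ℤ, Odd t ∧ Bal (2 * M) t p q := by
  have hgo : Odd g := odd_of_dvd_odd hgp hp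
  have hgM' : g ∣ M := odd_dvd_of_dvd_four_mul hgo hgM
  obtain ⟨m, hm⟩ := hgM'
  obtain ⟨a, b, hab⟩ := hg
  obtain ⟨c, d, hcd⟩ := hcop
  obtain ⟨p₁, hp₁⟩ := hgp
  have hm0 : 0 < m := by
    by_contra h
    push Not at h
    nlinarith
  have hg3 : 3 ≤ g := by
    obtain ⟨k, hk⟩ := hgo
    omega
  have ha : Odd a := by
    have h1 : Odd (p * a) := by
      obtain ⟨k, hk⟩ := hgo
      exact ⟨k - 2 * M * b, by linear_combination hab + hk⟩
    exact (Int.odd_mul.mp h1).2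
  set f := (q * a) / (4 * m) with hf
  have hY0 : 0 ≤ (q * a) % (4 * m) := Int.emod_nonneg _ (by omega)
  have hY1 : (q * a) % (4 * m) < 4 * m := Int.emod_lt_of_pos _ (by omega)
  have hdm : 4 * m * f + (q * a) % (4 * m) = q * a := Int.mul_ediv_add_emod _ _
  refine bal_of_lower (t := a - c * f * (4 * m)) hp hq ?_ (X := g) (Y := (q * a) % (4 * m))
    (by omega) ?_ hY0 ?_ ?_ ?_
  · obtain ⟨k, hk⟩ := ha
    exact ⟨k - c * f * (2 * m), by rw [hk]; ring⟩
  · nlinarith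
  · nlinarith
  · refine ⟨-b - c * f * p₁, ?_⟩
    rw [hm] at hab
    rw [hm, hp₁]
    rw [hp₁] at hab
    linear_combination hab
  · refine ⟨d * f, ?_⟩
    rw [hm]
    linear_combination (-(4 * m * f)) * hcd - hdm

/-- second case: `p` is invertible -/
lemma exists_bal_unit {M p q : ℤ} (hM : 0 < M) (hp : Odd p) (hq : Odd q)
    (hg : ∃ a b : ℤ, p * a + 4 * M * b = 1) (h1 : ¬ 4 * M ∣ p + q)
    (h2 : ¬ 4 * M ∣ p - q - 2 * M) : ∃ t : ℤ, Odd t ∧ Bal (2 * M) t p q := by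
  obtain ⟨a, b, hab⟩ := hg
  have ha : Odd a := by
    have h1 : Odd (p * a) := ⟨-(2 * M * b), by linear_combination hab⟩
    exact (Int.odd_mul.mp h1).2
  obtain ⟨p₀, hp₀⟩ := id hp
  set c := (q * a) % (4 * M) with hc
  have hc0 : 0 ≤ c := Int.emod_nonneg _ (by omega)
  have hc1 : c < 4 * M := Int.emod_lt_of_pos _ (by omega)
  have hcd : 4 * M ∣ q * a - c := Int.dvd_self_sub_emod
  obtain ⟨f, hf⟩ := hcd
  have hco : Odd c := by
    have h3 : Odd (q * a) := hq.mul ha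
    obtain ⟨k, hk⟩ := h3
    exact ⟨k - 2 * M * f, by linear_combination hk - hf⟩
  -- it is enough to find a suitable odd x
  have suff : ∀ x Y : ℤ, Odd x → 0 < x → x < 2 * M → 0 ≤ Y → Y < 2 * M → 4 * M ∣ c * x - Y →
      ∃ t : ℤ, Odd t ∧ Bal (2 * M) t p q := by
    intro x Y hx hx0 hx1 hY0 hY1 hY
    refine bal_of_lower (t := a * x) hp hq (ha.mul hx) (X := x) (Y := Y) hx0.le hx1 hY0 hY1 ?_ ?_
    · exact ⟨-b * x, by linear_combination x * hab⟩
    · obtain ⟨y, hy⟩ := hY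
      exact ⟨f * x + y, by linear_combination x * hf + hy⟩
  by_cases hlt : c < 2 * M
  · exact suff 1 c odd_one (by norm_num) (by omega) hc0 hlt ⟨0, by ring⟩
  -- now c > 2M
  obtain ⟨c₀, hc₀⟩ := id hco
  have hgt : 2 * M < c := by omega
  have hn1 : c ≠ 4 * M - 1 := by
    intro h
    apply h1
    refine ⟨p * (f + 1) + q * b, ?_⟩
    rw [h] at hf
    linear_combination p * hf - q * hab
  have hn2 : c ≠ 2 * M + 1 := by
    intro h
    apply h2
    refine ⟨-(p * f) - p₀ - 1 - q * b, ?_⟩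
    rw [h] at hf
    linear_combination (-p) * hf + q * hab - (2 * M) * hp₀
  -- the auxiliary number e
  have hfind : ∀ e : ℤ, Odd e → 3 ≤ e → e ≤ M →
      ∃ x : ℤ, Odd x ∧ 0 < x ∧ x < 2 * M ∧ 2 * M < e * x ∧ e * x < 4 * M := by
    intro e he he3 heM
    have hd := Int.mul_ediv_add_emod (2 * M) e
    have hr0 : 0 ≤ (2 * M) % e := Int.emod_nonneg _ (by omega)
    have hr1 : (2 * M) % e < e := Int.emod_lt_of_pos _ (by omega)
    set y := (2 * M) / e with hy
    have hy0 : 0 ≤ y := by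
      by_contra h
      push Not at h
      nlinarith
    have hmid : 2 * M < e * (y + 1) := by linarith
    have hup : e * (y + 1) ≤ 2 * M + e := by linarith
    rcases Int.even_or_odd (y + 1) with hpar | hpar
    · refine ⟨y + 2, ?_, by omega, ?_, by nlinarith, ?_⟩
      · have := hpar.add_one; convert this using 1; omega
      · have h3 : e * (y + 2) ≤ 4 * M := by nlinarith
        have h4 : 3 * (y + 2) ≤ e * (y + 2) := by nlinarith
        omega
      · have h3 : e * (y + 2) ≤ 4 * M := by nlinarith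
        have h4 : Odd (e * (y + 2)) := he.mul (by have := hpar.add_one; convert this using 1; omega)
        obtain ⟨k, hk⟩ := h4
        omega
    · refine ⟨y + 1, hpar, by omega, ?_, hmid, by linarith⟩
      have h4 : 3 * (y + 1) ≤ e * (y + 1) := by nlinarith
      omega
  by_cases hle : 4 * M - c ≤ M
  · obtain ⟨x, hxo, hx0, hx1, hx2, hx3⟩ := hfind (4 * M - c)
      ⟨2 * M - c₀ - 1, by rw [hc₀]; ring⟩ (by omega) hle
    refine suff x (4 * M - (4 * M - c) * x) hxo hx0 hx1 (by linarith) (by linarith) ⟨x - 1, by ring⟩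
  · obtain ⟨x, hxo, hx0, hx1, hx2, hx3⟩ := hfind (c - 2 * M)
      ⟨c₀ - M, by rw [hc₀]; ring⟩ (by omega) (by omega)
    obtain ⟨k, hk⟩ := id hxo
    refine suff x ((c - 2 * M) * x - 2 * M) hxo hx0 hx1 (by linarith) (by linarith) ⟨k + 1, ?_⟩
    rw [hk]; ring

/-- **Lemma 2**. -/
theorem exists_bal {M p q : ℤ} (hM : 0 < M) (hp : Odd p) (hq : Odd q) (h1 : ¬ 4 * M ∣ p + q)
    (h2 : ¬ 4 * M ∣ p - q - 2 * M) : ∃ t : ℤ, Odd t ∧ Bal (2 * M) t p q := by
  -- remove the common divisor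
  obtain ⟨g₀, hg₀⟩ : ∃ g₀ : ℤ, g₀ = ((Int.gcd ((Int.gcd p q : ℕ) : ℤ) (4 * M) : ℕ) : ℤ) := ⟨_, rfl⟩
  have hgpq : g₀ ∣ ((Int.gcd p q : ℕ) : ℤ) := by rw [hg₀]; exact Int.gcd_dvd_left _ _
  have hgp : g₀ ∣ p := hgpq.trans (Int.gcd_dvd_left _ _)
  have hgq : g₀ ∣ q := hgpq.trans (Int.gcd_dvd_right _ _)
  have hgM : g₀ ∣ 4 * M := by rw [hg₀]; exact Int.gcd_dvd_right _ _
  have hgo : Odd g₀ := odd_of_dvd_odd hgp hp
  have hgM' : g₀ ∣ M := odd_dvd_of_dvd_four_mul hgo hgM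
  have hg0 : 0 < g₀ := by
    rw [hg₀]
    have : Int.gcd ((Int.gcd p q : ℕ) : ℤ) (4 * M) ≠ 0 := by
      intro h
      rw [Int.gcd_eq_zero_iff] at h
      omega
    omega
  obtain ⟨p', hp'⟩ := hgp
  obtain ⟨q', hq'⟩ := hgq
  obtain ⟨M', hM'⟩ := hgM'
  have hM'0 : 0 < M' := by
    by_contra h
    push Not at h
    nlinarith
  have hp'o : Odd p' := odd_of_dvd_odd ⟨g₀, by rw [hp']; ring⟩ hp
  have hq'o : Odd q' := odd_of_dvd_odd ⟨g₀, by rw [hq']; ring⟩ hq
  have h1' : ¬ 4 * M' ∣ p' + q' := by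
    intro h
    apply h1
    exact dvd_eq' (mul_dvd_mul_left g₀ h) (by rw [hp', hq']; ring) (by rw [hM']; ring)
  have h2' : ¬ 4 * M' ∣ p' - q' - 2 * M' := by
    intro h
    apply h2
    exact dvd_eq' (mul_dvd_mul_left g₀ h) (by rw [hp', hq', hM']; ring) (by rw [hM']; ring)
  -- coprimality of the reduced numbers
  have hcop : ∀ d : ℤ, d ∣ p' → d ∣ q' → d ∣ 4 * M' → d ∣ 1 := by
    intro d hd1 hd2 hd3
    have e1 : g₀ * d ∣ ((Int.gcd p q : ℕ) : ℤ) := by
      apply Int.dvd_coe_gcd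
      · rw [hp']; exact mul_dvd_mul_left _ hd1
      · rw [hq']; exact mul_dvd_mul_left _ hd2
    have e2 : g₀ * d ∣ 4 * M := by
      have := mul_dvd_mul_left g₀ hd3
      rw [hM']
      exact dvd_eq this (by ring)
    have e3 : g₀ * d ∣ g₀ := by
      conv_rhs => rw [hg₀]
      exact Int.dvd_coe_gcd e1 e2
    obtain ⟨k, hk⟩ := e3
    refine ⟨k, ?_⟩
    have : g₀ * (1 - d * k) = 0 := by linear_combination hk
    rcases mul_eq_zero.mp this with h | h
    · omega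
    · linarith
  have hres : ∃ t : ℤ, Odd t ∧ Bal (2 * M') t p' q' := by
    have hbez : p' * Int.gcdA p' (4 * M') + 4 * M' * Int.gcdB p' (4 * M') =
        (Int.gcd p' (4 * M') : ℤ) := (Int.gcd_eq_gcd_ab _ _).symm
    have hgpos : (0 : ℤ) < Int.gcd p' (4 * M') := by
      have : Int.gcd p' (4 * M') ≠ 0 := by
        intro h
        rw [Int.gcd_eq_zero_iff] at h
        omega
      omega
    by_cases hone : (Int.gcd p' (4 * M') : ℤ) = 1
    · exact exists_bal_unit hM'0 hp'o hq'o ⟨_, _, by rw [hbez, hone]⟩ h1' h2'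
    · refine exists_bal_nonunit hM'0 hp'o hq'o (g := Int.gcd p' (4 * M')) (by omega)
        ⟨_, _, hbez⟩ (Int.gcd_dvd_left _ _) (Int.gcd_dvd_right _ _) ?_
      rw [Int.isCoprime_iff_gcd_eq_one]
      have h3 : (Int.gcd q' (Int.gcd p' (4 * M')) : ℤ) ∣ 1 := by
        apply hcop
        · exact (Int.gcd_dvd_right _ _).trans (Int.gcd_dvd_left _ _)
        · exact Int.gcd_dvd_left _ _
        · exact (Int.gcd_dvd_right _ _).trans (Int.gcd_dvd_right _ _)
      have h4 := Int.eq_one_of_dvd_one (by positivity) h3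
      exact_mod_cast h4
  obtain ⟨t, ht, hB⟩ := hres
  refine ⟨t, ht, ?_⟩
  have := hB.scale hg0
  rw [← hp', ← hq'] at this
  rw [hM']
  convert this using 1
  ring

end Pool.Agent.Q231.Ships
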