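import Pool.Agent.Q231.Ships.Cases

/-!
# The normalised theorem: two triples with odd parts
-/

namespace Pool.Agent.Q231.Ships

lemma Good.mulD {H t p q D : ℤ} (hD : D ≠ 0) (h : Good H t p q ∧ Odd t) :
    ∃ t', Odd t' ∧ (t' = t ∨ t' = -t) ∧ Good (|D| * H) t' (D * p) (D * q) := by
  obtain ⟨h, ht⟩ := h
  have hpos : 0 < |D| := abs_pos.mpr hD
  have h1 := h.scale hpos
  rcases abs_cases D with ⟨e, _⟩ | ⟨e, _⟩
  · refine ⟨t, ht, Or.inl rfl, ?_⟩
    rw [e] at h1 ⊢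
    exact h1
  · refine ⟨-t, ht.neg, Or.inr rfl, ?_⟩
    rw [e] at h1 ⊢
    rcases h1 with ⟨X, Y, hX0, hXH, hY0, hYH, hXY, hX, hY⟩ | h1 | h1 | h1
    · exact Or.inl ⟨X, Y, hX0, hXH, hY0, hYH, hXY, dvd_eq hX (by ring), dvd_eq hY (by ring)⟩
    · exact Or.inr (Or.inl (dvd_eq h1 (by ring)))
    · exact Or.inr (Or.inr (Or.inl (dvd_eq h1 (by ring))))
    · exact Or.inr (Or.inr (Or.inr (dvd_eq h1 (by ring))))

/-- the final situation -/
lemma final_case {p q D m S Δ : ℤ} (hD0 : D ≠ 0) (hm : m ≠ 0) (hS : Odd S)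
    (hΔ : Odd Δ) (hp : p = D * (4 * m + Δ)) (hq : q = D * (4 * m - Δ))
    (hdiv : 4 * (m * S) ^ 2 - 1 ∣ Δ) :
    Circ p q (2 * (D * (1 + 2 * (m * S)))) (2 * (D * (1 - 2 * (m * S)))) ∨
      Exc p q (2 * (D * (1 + 2 * (m * S)))) (2 * (D * (1 - 2 * (m * S)))) := by
  have hS0 : S ≠ 0 := by
    rintro rfl
    exact (by decide : ¬ Odd (0 : ℤ)) hS
  have hc0 : m * S ≠ 0 := mul_ne_zero hm hS0
  have hΔ0 : Δ ≠ 0 := by
    rintro rfl
    exact (by decide : ¬ Odd (0 : ℤ)) hΔ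
  set c : ℤ := |m * S| with hc
  have hc1 : 1 ≤ c := Int.one_le_abs hc0
  have hcsq : c ^ 2 = (m * S) ^ 2 := sq_abs _
  have hle : 4 * c ^ 2 - 1 ≤ |Δ| := by
    apply Int.le_of_dvd (abs_pos.mpr hΔ0)
    rw [dvd_abs, hcsq]
    exact hdiv
  set O : ℤ := 4 * |m| + |Δ| with hO
  have hm1 : 1 ≤ |m| := Int.one_le_abs hm
  have hOo : Odd O := by
    have h1 : Odd |Δ| := by
      rcases abs_cases Δ with ⟨e, _⟩ | ⟨e, _⟩
      · rw [e]; exact hΔ
      · rw [e]; exact hΔ.neg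
    obtain ⟨a, ha⟩ := h1
    exact ⟨2 * |m| + a, by rw [hO, ha]; ring⟩
  -- |p| or |q| is |D| * O
  have hpq : |p| = |D| * O ∨ |q| = |D| * O := by
    rw [hp, hq, abs_mul, abs_mul, hO]
    rcases abs_cases m with ⟨e1, s1⟩ | ⟨e1, s1⟩ <;> rcases abs_cases Δ with ⟨e2, s2⟩ | ⟨e2, s2⟩
    · left; rw [abs_of_nonneg (by omega : (0:ℤ) ≤ 4 * m + Δ), e1, e2]
    · right; rw [abs_of_nonneg (by omega : (0:ℤ) ≤ 4 * m - Δ), e1, e2]; ring
    · right; rw [abs_of_nonpos (by omega : 4 * m - Δ ≤ (0:ℤ)), e1, e2]; ring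
    · left; rw [abs_of_nonpos (by omega : 4 * m + Δ ≤ (0:ℤ)), e1, e2]; ring
  by_cases hexc : c = 1 ∧ |Δ| < 9
  · right
    obtain ⟨hcc, h9⟩ := hexc
    -- |m| = 1, |S| = 1, |Δ| = 3
    have hmul : |m| * |S| = 1 := by rw [← abs_mul]; exact hcc
    have hS1 : 1 ≤ |S| := Int.one_le_abs hS0
    have hmabs : |m| = 1 := by nlinarith
    have hSabs : |S| = 1 := by nlinarith
    have hsq1 : (m * S) ^ 2 = 1 := by rw [← hcsq, hcc]; norm_num
    have h3 : (3 : ℤ) ∣ Δ := by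
      rw [hsq1] at hdiv
      norm_num at hdiv
      exact hdiv
    have hΔabs : |Δ| = 3 := by
      rw [hcc] at hle
      obtain ⟨a, ha⟩ := h3
      obtain ⟨b, hb⟩ := hΔ
      rcases abs_cases Δ with ⟨e, _⟩ | ⟨e, _⟩ <;> omega
    have hm' : m = 1 ∨ m = -1 := by
      rcases abs_cases m with ⟨e, _⟩ | ⟨e, _⟩ <;> omega
    have hS' : S = 1 ∨ S = -1 := by
      rcases abs_cases S with ⟨e, _⟩ | ⟨e, _⟩ <;> omega
    have hΔ' : Δ = 3 ∨ Δ = -3 := by
      rcases abs_cases Δ with ⟨e, _⟩ | ⟨e, _⟩ <;> omega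
    rcases hm' with rfl | rfl
    · refine ⟨D, hD0, ?_, ?_⟩
      · rcases hΔ' with rfl | rfl
        · left; constructor
          · rw [hp]; ring
          · rw [hq]; ring
        · right; constructor
          · rw [hp]; ring
          · rw [hq]; ring
      · rcases hS' with rfl | rfl
        · left; constructor <;> ring
        · right; left; constructor <;> ring
    · refine ⟨-D, neg_ne_zero.mpr hD0, ?_, ?_⟩
      · rcases hΔ' with rfl | rfl
        · right; constructor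
          · rw [hp]; ring
          · rw [hq]; ring
        · left; constructor
          · rw [hp]; ring
          · rw [hq]; ring
      · rcases hS' with rfl | rfl
        · right; right; right; constructor <;> ring
        · right; right; left; constructor <;> ring
  · left
    have h12 : c = 1 → 12 ≤ O := by
      intro h
      have : ¬ |Δ| < 9 := fun h' => hexc ⟨h, h'⟩
      omega
    obtain ⟨t, ht, hB⟩ := last_option hOo hc1 (by linarith) h12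
    have hB' : Bal O t (2 * (1 + 2 * (m * S))) (2 * (1 - 2 * (m * S))) := by
      rcases abs_cases (m * S) with ⟨e, _⟩ | ⟨e, _⟩
      · rw [hc, e] at hB; exact hB
      · rw [hc, e] at hB
        have := hB.symm
        convert this using 2 <;> ring
    obtain ⟨t', ht', _, hG⟩ := Good.mulD hD0 ⟨Or.inl hB', ht⟩
    refine ⟨|D| * O, t', ?_, ht', ?_, ?_⟩
    · have : 0 < |D| := abs_pos.mpr hD0
      have : 0 < O := by
        have := abs_nonneg Δ
        linarith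
      positivity
    · rcases hpq with h | h
      · exact Or.inr (Or.inl (by rw [← h]; exact antipodal ht'))
      · exact Or.inr (Or.inr (Or.inl (by rw [← h]; exact antipodal ht')))
    · convert hG using 1 <;> ring

/-- **The normalised theorem.** -/
theorem norm_case {p q w₁ w₂ : ℤ} {k : ℕ} (hk : 1 ≤ k) (hp : Odd p) (hq : Odd q)
    (hw1 : Odd w₁) (hw2 : Odd w₂) (hU : p + q ≠ 0) (hV : w₁ + w₂ ≠ 0) :
    Circ p q (2 ^ k * w₁) (2 ^ k * w₂) ∨ Exc p q (2 ^ k * w₁) (2 ^ k * w₂) := by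
  by_cases hno : Circ p q (2 ^ k * w₁) (2 ^ k * w₂)
  · exact Or.inl hno
  obtain ⟨n, rfl⟩ : ∃ n, k = n + 1 := ⟨k - 1, by omega⟩
  have hw1' : w₁ ≠ 0 := by rintro rfl; exact (by decide : ¬ Odd (0 : ℤ)) hw1
  have hw2' : w₂ ≠ 0 := by rintro rfl; exact (by decide : ¬ Odd (0 : ℤ)) hw2
  have h2k : (2 : ℤ) ^ (n + 1) ≠ 0 := by positivity
  have hev : ∀ x : ℤ, Even ((2 : ℤ) ^ (n + 1) * x) := fun x =>
    ⟨2 ^ n * x, by rw [pow_succ]; ring⟩
  obtain ⟨a₁, ha₁⟩ := hw1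
  obtain ⟨a₂, ha₂⟩ := hw2
  obtain ⟨b₁, hb₁⟩ := hp
  obtain ⟨b₂, hb₂⟩ := hq
  have F₁ := fail_B ⟨b₁, hb₁⟩ ⟨b₂, hb₂⟩ (mul_ne_zero h2k hw1') (hev w₁) (Or.inl rfl) hno
  have F₂ := fail_B ⟨b₁, hb₁⟩ ⟨b₂, hb₂⟩ (mul_ne_zero h2k hw2') (hev w₂) (Or.inr (Or.inl rfl)) hno
  have F₃ := fail_B (v := 2 ^ (n + 1) * w₁ + 2 ^ (n + 1) * w₂) ⟨b₁, hb₁⟩ ⟨b₂, hb₂⟩
    (by rw [← mul_add]; exact mul_ne_zero h2k hV) (by rw [← mul_add]; exact hev _)
    (Or.inr (Or.inr rfl)) hno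
  -- the second alternative of `F₃` is impossible
  have F₃' : ∃ m, p + q = 2 * (2 ^ (n + 1) * w₁ + 2 ^ (n + 1) * w₂) * m := by
    rcases F₃ with h | ⟨s, hs⟩
    · exact h
    · exfalso
      rcases F₁ with ⟨m, hm⟩ | ⟨s₁, hs₁⟩
      · -- p + q and p - q both divisible by 4
        have e1 : 2 * p = 4 * (2 ^ n * w₁ * m) + 4 * (2 ^ n * (a₁ + a₂ + 1) * (2 * s + 1)) := by
          have : 2 * p = (p + q) + (p - q) := by ring
          rw [this, hm, hs, ha₁, ha₂, pow_succ]; ring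
        rw [hb₁] at e1
        omega
      · have e1 : (2 : ℤ) ^ (n + 1) * (w₁ * (2 * s₁ + 1)) =
            2 ^ (n + 1) * ((w₁ + w₂) * (2 * s + 1)) := by
          rw [← mul_assoc, ← hs₁, hs]; ring
        have e2 := mul_left_cancel₀ h2k e1
        have o1 : Odd (w₁ * (2 * s₁ + 1)) := Odd.mul ⟨a₁, ha₁⟩ ⟨s₁, rfl⟩
        have o2 : Even ((w₁ + w₂) * (2 * s + 1)) :=
          Even.mul_right ⟨a₁ + a₂ + 1, by rw [ha₁, ha₂]; ring⟩ _
        rw [e2] at o1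
        exact (Int.not_even_iff_odd.mpr o1) o2
  obtain ⟨m, hm⟩ := F₃'
  have hm0 : m ≠ 0 := by
    rintro rfl
    apply hU
    rw [hm]; ring
  obtain ⟨S₀, hS₀⟩ := fail_A ⟨a₁, ha₁⟩ ⟨a₂, ha₂⟩ hV hU hm hno
  set S := 2 * S₀ + 1 with hSdef
  -- D = (w₁ + w₂) / 2
  obtain ⟨D, hD⟩ : ∃ D, D = a₁ + a₂ + 1 := ⟨_, rfl⟩
  have hV2 : w₁ + w₂ = 2 * D := by rw [ha₁, ha₂, hD]; ring
  have hw1D : w₁ = D * (1 + 2 * (m * S)) := by
    have : 2 * w₁ = 2 * (D * (1 + 2 * (m * S))) := by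
      have : 2 * w₁ = (w₁ + w₂) + (w₁ - w₂) := by ring
      rw [this, hS₀, hV2]; ring
    linarith
  have hw2D : w₂ = D * (1 - 2 * (m * S)) := by
    have : w₂ = 2 * D - w₁ := by linarith
    rw [this, hw1D]; ring
  have hD0 : D ≠ 0 := by
    rintro h
    apply hV
    rw [hV2, h]; ring
  have hU2 : p + q = 2 ^ (n + 1) * (4 * (D * m)) := by
    rw [hm, ← mul_add, hV2]; ring
  have hS0 : S ≠ 0 := by omega
  have hmS : m * S ≠ 0 := mul_ne_zero hm0 hS0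
  -- alternative (a) for w₁ forces m S = -1, for w₂ forces m S = 1
  have habs_ms : |m| ≤ |m * S| := by
    rw [abs_mul]
    have h1 : 1 ≤ |S| := Int.one_le_abs hS0
    have h2 : 0 ≤ |m| := abs_nonneg m
    nlinarith
  have hm1 : 1 ≤ |m| := Int.one_le_abs hm0
  have Aone : ∀ e : ℤ, (e = 1 ∨ e = -1) → ∀ m₁, p + q = 2 * (2 ^ (n + 1) *
      (D * (1 + e * (2 * (m * S))))) * m₁ → e * (m * S) = -1 ∧ |m| = 1 := by
    intro e he m₁ h
    have h1 : (2 : ℤ) ^ (n + 1) * D * (4 * m) = 2 ^ (n + 1) * D *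
        (2 * ((1 + e * (2 * (m * S))) * m₁)) := by
      rw [hU2] at h
      linear_combination h
    have h2 := mul_left_cancel₀ (mul_ne_zero h2k hD0) h1
    have h3 : 2 * m = (1 + e * (2 * (m * S))) * m₁ := by linarith
    -- m₁ is even
    have hm₁e : Even m₁ := by
      by_contra ho
      rw [Int.not_even_iff_odd] at ho
      have o1 : Odd ((1 + e * (2 * (m * S))) * m₁) :=
        Odd.mul ⟨e * (m * S), by ring⟩ ho
      rw [← h3] at o1
      exact (Int.not_even_iff_odd.mpr o1) (even_two_mul m)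
    obtain ⟨n₁, hn₁⟩ := hm₁e
    have h4 : m = (1 + e * (2 * (m * S))) * n₁ := by
      have : 2 * m = 2 * ((1 + e * (2 * (m * S))) * n₁) := by rw [h3, hn₁]; ring
      linarith
    have h5 : |1 + e * (2 * (m * S))| ≤ |m| := by
      apply Int.le_of_dvd (abs_pos.mpr hm0)
      rw [abs_dvd, dvd_abs]
      exact ⟨n₁, h4⟩
    have h6 : |e * (m * S)| = |m * S| := by
      rcases he with rfl | rfl <;> simp
    set y := e * (m * S) with hy
    have h7 : 1 + e * (2 * (m * S)) = 1 + 2 * y := by rw [hy]; ring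
    rw [h7] at h5
    have h8 : |m * S| = |y| := h6.symm
    rw [h8] at habs_ms
    have h9 : y ≠ 0 := by
      intro h0
      rw [h0] at habs_ms
      simp at habs_ms
      exact hm0 habs_ms
    rcases abs_cases (1 + 2 * y) with ⟨e1, s1⟩ | ⟨e1, s1⟩ <;>
      rcases abs_cases y with ⟨e2, s2⟩ | ⟨e2, s2⟩ <;> constructor <;> omega
  -- if (b) holds for one of them then n = 0
  have Bk : ∀ w s : ℤ, p - q = 2 ^ (n + 1) * w * (2 * s + 1) → n = 0 := by
    intro w s h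
    by_contra hn
    obtain ⟨n', rfl⟩ : ∃ n', n = n' + 1 := ⟨n - 1, by omega⟩
    have e1 : 2 * p = 4 * (2 ^ n' * (4 * (D * m))) + 4 * (2 ^ n' * w * (2 * s + 1)) := by
      have : 2 * p = (p + q) + (p - q) := by ring
      rw [this, hU2, h, pow_succ, pow_succ]; ring
    rw [hb₁] at e1
    omega
  have F₁' : ((m * S) = -1 ∧ |m| = 1) ∨
      ∃ s, p - q = 2 ^ (n + 1) * (D * (1 + 2 * (m * S))) * (2 * s + 1) := by
    rcases F₁ with ⟨m₁, h⟩ | ⟨s, h⟩
    · left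
      have := Aone 1 (Or.inl rfl) m₁ (by rw [h]; rw [hw1D]; ring)
      simpa using this
    · right
      exact ⟨s, by rw [← hw1D]; exact h⟩
  have F₂' : ((m * S) = 1 ∧ |m| = 1) ∨
      ∃ s, p - q = 2 ^ (n + 1) * (D * (1 - 2 * (m * S))) * (2 * s + 1) := by
    rcases F₂ with ⟨m₁, h⟩ | ⟨s, h⟩
    · left
      have := Aone (-1) (Or.inr rfl) m₁ (by rw [h]; rw [hw2D]; ring)
      constructor
      · linarith [this.1]
      · exact this.2
    · right
      exact ⟨s, by rw [← hw2D]; exact h⟩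
  -- conclusion
  have hfin : n = 0 ∧ ∃ Δ, Odd Δ ∧ p - q = 2 * (D * Δ) ∧ 4 * (m * S) ^ 2 - 1 ∣ Δ := by
    rcases F₁' with ⟨h1, _⟩ | ⟨s₁, h1⟩
    · rcases F₂' with ⟨h2, _⟩ | ⟨s₂, h2⟩
      · exfalso; omega
      · have hn := Bk _ _ h2
        refine ⟨hn, (1 - 2 * (m * S)) * (2 * s₂ + 1), ?_, ?_, ?_⟩
        · exact Odd.mul ⟨-(m * S), by ring⟩ ⟨s₂, rfl⟩
        · rw [h2, hn]; ring
        · rw [h1]; exact ⟨2 * s₂ + 1, by ring⟩
    · have hn := Bk _ _ h1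
      rcases F₂' with ⟨h2, _⟩ | ⟨s₂, h2⟩
      · refine ⟨hn, (1 + 2 * (m * S)) * (2 * s₁ + 1), ?_, ?_, ?_⟩
        · exact Odd.mul ⟨m * S, by ring⟩ ⟨s₁, rfl⟩
        · rw [h1, hn]; ring
        · rw [h2]; exact ⟨2 * s₁ + 1, by ring⟩
      · refine ⟨hn, (1 + 2 * (m * S)) * (2 * s₁ + 1), ?_, ?_, ?_⟩
        · exact Odd.mul ⟨m * S, by ring⟩ ⟨s₁, rfl⟩
        · rw [h1, hn]; ring
        · -- (1+2c)(2s₁+1) = (1-2c)(2s₂+1)
          have h3 : (2 : ℤ) ^ (n + 1) * D * ((1 + 2 * (m * S)) * (2 * s₁ + 1)) =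
              2 ^ (n + 1) * D * ((1 - 2 * (m * S)) * (2 * s₂ + 1)) := by
            linear_combination h2 - h1
          have h4 := mul_left_cancel₀ (mul_ne_zero h2k hD0) h3
          set c := m * S
          -- (1-2c)(c+1) + (1+2c) c = 1
          refine ⟨-((c + 1) * (2 * s₁ + 1) + c * (2 * s₂ + 1)), ?_⟩
          linear_combination (c * (1 + 2 * c)) * h4
  obtain ⟨hn, Δ, hΔ, hpq, hdiv⟩ := hfin
  subst hn
  have hpD : p = D * (4 * m + Δ) := by
    have : 2 * p = 2 * (D * (4 * m + Δ)) := by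
      have : 2 * p = (p + q) + (p - q) := by ring
      rw [this, hU2, hpq]; ring
    linarith
  have hqD : q = D * (4 * m - Δ) := by
    have : 2 * q = 2 * (D * (4 * m - Δ)) := by
      have : 2 * q = (p + q) - (p - q) := by ring
      rw [this, hU2, hpq]; ring
    linarith
  have hlast := final_case hD0 hm0 ⟨S₀, hSdef⟩ hΔ hpD hqD hdiv
  rw [← hw1D, ← hw2D] at hlast
  simpa using hlast

end Pool.Agent.Q231.Ships
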